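import Mathlib

set_option autoImplicit false
set_option linter.unusedSectionVars false

namespace Pool.Agent.Helper90.GC

open Finset

/-- The sign of an element of `ZMod 2`. -/
def sg (a : ZMod 2) : ℤ := if a = 0 then 1 else -1

lemma sg_zero : sg 0 = 1 := by decide

lemma sg_add (a b : ZMod 2) : sg (a + b) = sg a * sg b := by
  revert a b; decide

lemma sg_sum {ι : Type*} (s : Finset ι) (f : ι → ZMod 2) :
    sg (∑ i ∈ s, f i) = ∏ i ∈ s, sg (f i) := by
  classical
  induction s using Finset.induction_on with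
  | empty => simp [sg_zero]
  | insert a s ha ih => rw [sum_insert ha, prod_insert ha, sg_add, ih]

lemma four_bound : ∀ a b c : ZMod 2,
    -2 ≤ sg a + sg (a + b) + sg (a + c) + sg (a + b + c + 1) := by decide

lemma four_eq : ∀ a b c : ZMod 2,
    sg a + sg (a + b) + sg (a + c) + sg (a + b + c + 1) = 2 * sg (a + b * c) := by decide

section quad

variable {V : Type*} [AddCommGroup V] [Fintype V]

lemma sum_shift (g : V → ℤ) (u : V) : ∑ x, g (x + u) = ∑ x, g x :=
  Fintype.sum_equiv (Equiv.addRight u) _ _ (fun _ => rfl)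

lemma one_of_ne {a : ZMod 2} (h : a ≠ 0) : a = 1 := by
  revert a; decide

lemma four_sum (q : V → ZMod 2) (B : V → V → ZMod 2)
    (hq : ∀ x y, q (x + y) = q x + q y + B x y)
    (hB : ∀ x y z, B (x + y) z = B x z + B y z) (u v : V) (huv : B u v = 1) :
    4 * ∑ x, sg (q x) = ∑ x, (sg (q x) + sg (q x + (q u + B x u)) + sg (q x + (q v + B x v))
      + sg (q x + (q u + B x u) + (q v + B x v) + 1)) := by
  have h1 : ∀ x, sg (q x + (q u + B x u)) = sg (q (x + u)) := by
    intro x; rw [hq x u, add_assoc]
  have h2 : ∀ x, sg (q x + (q v + B x v)) = sg (q (x + v)) := by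
    intro x; rw [hq x v, add_assoc]
  have h3 : ∀ x, sg (q x + (q u + B x u) + (q v + B x v) + 1) = sg (q (x + (u + v))) := by
    intro x
    rw [← add_assoc x u v, hq (x + u) v, hq x u, hB x u v, huv]
    congr 1
    ring
  have e1 := sum_shift (fun x => sg (q x)) u
  have e2 := sum_shift (fun x => sg (q x)) v
  have e3 := sum_shift (fun x => sg (q x)) (u + v)
  simp only [sum_add_distrib, h1, h2, h3]
  simp only [e1, e2, e3]
  ring

/-- The sum of signs of a quadratic form on a finite group is at least minus half the order. -/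
theorem quad_lower (q : V → ZMod 2) (B : V → V → ZMod 2)
    (hq : ∀ x y, q (x + y) = q x + q y + B x y)
    (hB : ∀ x y z, B (x + y) z = B x z + B y z) :
    -(Fintype.card V : ℤ) ≤ 2 * ∑ x, sg (q x) := by
  by_cases h : ∃ u v, B u v ≠ 0
  · obtain ⟨u, v, huv⟩ := h
    have h4 := four_sum q B hq hB u v (one_of_ne huv)
    have h5 : ∑ x : V, (-2 : ℤ) ≤ ∑ x, (sg (q x) + sg (q x + (q u + B x u))
        + sg (q x + (q v + B x v)) + sg (q x + (q u + B x u) + (q v + B x v) + 1)) :=
      sum_le_sum (fun x _ => four_bound _ _ _)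
    rw [← h4] at h5
    simp only [sum_const, card_univ, nsmul_eq_mul] at h5
    linarith
  · push Not at h
    have hadd : ∀ x y, q (x + y) = q x + q y := by
      intro x y; rw [hq, h, add_zero]
    by_cases h1 : ∃ u, q u ≠ 0
    · obtain ⟨u, hu⟩ := h1
      have hu1 := one_of_ne hu
      have e := sum_shift (fun x => sg (q x)) u
      have e' : ∑ x, sg (q (x + u)) = - ∑ x, sg (q x) := by
        rw [← sum_neg_distrib]
        refine sum_congr rfl (fun x _ => ?_)
        rw [hadd, hu1, sg_add]
        have : sg 1 = -1 := by decide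
        rw [this]; ring
      have : ∑ x, sg (q x) = 0 := by linarith
      rw [this]
      have := Fintype.card_pos_iff.mpr (⟨0⟩ : Nonempty V)
      have : (0 : ℤ) < Fintype.card V := by exact_mod_cast this
      linarith
    · push Not at h1
      have : ∑ x, sg (q x) = (Fintype.card V : ℤ) := by
        simp [h1, sg_zero, card_univ]
      rw [this]
      have : (0 : ℤ) ≤ Fintype.card V := by positivity
      linarith

/-- If the quadratic form vanishes at two vectors with `B u v = 1`, the sum of signs is at least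
minus a quarter of the order. -/
theorem quad_lower_four (q : V → ZMod 2) (B : V → V → ZMod 2)
    (hq : ∀ x y, q (x + y) = q x + q y + B x y)
    (hB : ∀ x y z, B (x + y) z = B x z + B y z) (u v : V) (hu : q u = 0) (hv : q v = 0)
    (huv : B u v = 1) :
    -(Fintype.card V : ℤ) ≤ 4 * ∑ x, sg (q x) := by
  have h4 := four_sum q B hq hB u v huv
  have h5 : 4 * ∑ x, sg (q x) = 2 * ∑ x, sg (q x + B x u * B x v) := by
    rw [h4, mul_sum]
    refine sum_congr rfl (fun x _ => ?_)
    rw [four_eq, hu, hv, zero_add, zero_add]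
  rw [h5]
  refine quad_lower (fun x => q x + B x u * B x v)
    (fun x y => B x y + B x u * B y v + B y u * B x v) ?_ ?_
  · intro x y
    rw [hq x y, hB x y u, hB x y v]
    ring
  · intro x y z
    rw [hB x y z, hB x y u, hB x y v]
    ring

end quad

section walsh

variable {E : Type*} [Fintype E] [DecidableEq E]

/-- Walsh functions on the power set of `E`. -/
def w (H S : Finset E) : ℤ := ∏ e ∈ H, (if e ∈ S then -1 else 1)

lemma w_empty (S : Finset E) : w ∅ S = 1 := by simp [w]

lemma w_symmDiff (H S T : Finset E) : w H (symmDiff S T) = w H S * w H T := by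
  unfold w
  rw [← prod_mul_distrib]
  refine prod_congr rfl (fun e _ => ?_)
  by_cases hS : e ∈ S <;> by_cases hT : e ∈ T <;> simp [mem_symmDiff, hS, hT]

lemma sum_w (S : Finset E) :
    ∑ H : Finset E, w H S = if S = ∅ then (2 : ℤ) ^ (Fintype.card E) else 0 := by
  have h : ∑ H : Finset E, w H S = ∏ e : E, (1 + (if e ∈ S then (-1 : ℤ) else 1)) := by
    rw [Finset.prod_one_add, powerset_univ]
    rfl
  rw [h]
  split_ifs with hS
  · subst hS
    simp [card_univ]
  · obtain ⟨e, he⟩ := Finset.nonempty_of_ne_empty hS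
    exact prod_eq_zero (mem_univ e) (by simp [he])

/-- Fourier coefficient of a family. -/
def fh (F : Finset (Finset E)) (H : Finset E) : ℤ := ∑ S ∈ F, w H S

lemma sum_fh (F : Finset (Finset E)) (K : Finset E) :
    ∑ H : Finset E, (fh F H) ^ 2 * w H K
      = (2 : ℤ) ^ (Fintype.card E) *
        ∑ S ∈ F, ∑ T ∈ F, (if symmDiff (symmDiff S T) K = ∅ then 1 else 0) := by
  have h1 : ∀ H : Finset E, (fh F H) ^ 2 * w H K
      = ∑ S ∈ F, ∑ T ∈ F, w H (symmDiff (symmDiff S T) K) := by
    intro H
    rw [sq]
    unfold fh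
    rw [sum_mul_sum, sum_mul]
    refine sum_congr rfl (fun S _ => ?_)
    rw [sum_mul]
    refine sum_congr rfl (fun T _ => ?_)
    rw [w_symmDiff, w_symmDiff]
  rw [sum_congr rfl (fun H _ => h1 H), sum_comm, mul_sum]
  refine sum_congr rfl (fun S _ => ?_)
  rw [sum_comm, mul_sum]
  refine sum_congr rfl (fun T _ => ?_)
  rw [sum_w]
  split_ifs <;> simp

lemma sum_fh_sq (F : Finset (Finset E)) :
    ∑ H : Finset E, (fh F H) ^ 2 = (2 : ℤ) ^ (Fintype.card E) * F.card := by
  have h := sum_fh F ∅
  have h0 : ∀ H : Finset E, w H ∅ = 1 := by intro H; simp [w]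
  simp only [h0, mul_one] at h
  rw [h]
  congr 1
  have : ∀ S ∈ F, ∑ T ∈ F, (if symmDiff (symmDiff S T) (∅ : Finset E) = ∅ then (1 : ℤ) else 0)
      = 1 := by
    intro S hS
    rw [sum_eq_single_of_mem S hS]
    · simp
    · intro T _ hTS
      rw [if_neg]
      intro h
      apply hTS
      have h' : symmDiff S T = ∅ := by simpa using h
      exact (symmDiff_eq_bot.mp h').symm
  rw [sum_congr rfl this]
  simp

end walsh

end Pool.Agent.Helper90.GC
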